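import Pool.Agent.Lib.MP_d3d358_ag.Hom.Defs
import Pool.Agent.Lib.MP_d3d358_ag.Mor.Sing

/-! Single complexes: vanishing of morphisms, transport along additive functors. -/

set_option autoImplicit false
set_option linter.unusedSectionVars false

namespace Pool.Agent.Lib.MP_d3d358_ag.Th

open CategoryTheory Limits Pretriangulated Abelian CochainComplex CochainComplex.HomComplex

universe w v u v' u'

section Gen

variable {P : Type u} [Category.{v} P] [Preadditive P] [HasZeroObject P] [HasBinaryBiproducts P]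
  {Q : Type u'} [Category.{v'} Q] [Preadditive Q] [HasZeroObject Q] [HasBinaryBiproducts Q]

theorem va_iff_class (F : P) (X : CochainComplex P ℤ) : Va F (qk X) ↔
    ∀ (m : ℤ) (c : CohomologyClass ((singleFunctor P 0).obj F) X m), c = 0 := by
  refine forall_congr' fun m => ?_
  let e : (qk X)⟦m⟧ ≅ qk (X⟦m⟧) :=
    (((HomotopyCategory.quotient P (ComplexShape.up ℤ)).commShiftIso m).app X).symm
  let E : CohomologyClass ((singleFunctor P 0).obj F) X m ≃+ (sing F ⟶ qk (X⟦m⟧)) :=
    CohomologyClass.homAddEquiv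
  constructor
  · intro h c
    apply E.injective
    rw [map_zero, ← cancel_mono e.inv, h (E c ≫ e.inv), zero_comp]
  · intro h φ
    rw [← cancel_mono e.hom, zero_comp, ← E.apply_symm_apply (φ ≫ e.hom), h (E.symm _), map_zero]

theorem va_iff (F : P) (X : CochainComplex P ℤ) : Va F (qk X) ↔
    ∀ (i j k : ℤ), i + 1 = j → j + 1 = k → ∀ g : F ⟶ X.X j, g ≫ X.d j k = 0 →
      ∃ f : F ⟶ X.X i, f ≫ X.d i j = g := by
  rw [va_iff_class]
  constructor
  · intro h i j k hi hj g hg
    exact (Cocycle.fromSingleMk_mem_coboundaries_iff g (zero_add j) k hj hg i hi).1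
      ((CohomologyClass.mk_eq_zero_iff _).1 (h j _))
  · intro h m c
    obtain ⟨c, rfl⟩ := c.mk_surjective
    obtain ⟨g, hg, rfl⟩ := c.fromSingleMk_surjective m (zero_add m) (m + 1) rfl
    exact (CohomologyClass.mk_eq_zero_iff _).2
      ((Cocycle.fromSingleMk_mem_coboundaries_iff g (zero_add m) (m + 1) rfl hg (m - 1)
        (sub_add_cancel m 1)).2 (h _ _ _ (sub_add_cancel m 1) rfl g hg))

/-- An additive functor sends single complexes to single complexes. -/
noncomputable def singIso (G : P ⥤ Q) [G.Additive] (X : P) :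
    (KF G).obj (sing X) ≅ sing (G.obj X) := (Mor.singKF G).app X

theorem singIso_nat (G : P ⥤ Q) [G.Additive] {X Y : P} (u : X ⟶ Y) :
    (KF G).map ((HomotopyCategory.singleFunctor P 0).map u) ≫ (singIso G Y).hom =
      (singIso G X).hom ≫ (HomotopyCategory.singleFunctor Q 0).map (G.map u) :=
  (Mor.singKF G).hom.naturality u

theorem natK_sing {T : P ⥤ P} [T.Additive] (y : 𝟭 P ⟶ T) (X : P) :
    (show sing X ⟶ (KF T).obj (sing X) from (natK y).app (sing X)) ≫ (singIso T X).hom =
      (HomotopyCategory.singleFunctor P 0).map (show X ⟶ T.obj X from y.app X) := by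
  change (HomotopyCategory.quotient P (ComplexShape.up ℤ)).map _ ≫
    (HomotopyCategory.quotient P (ComplexShape.up ℤ)).map _ =
    (HomotopyCategory.quotient P (ComplexShape.up ℤ)).map _
  refine (Functor.map_comp _ _ _).symm.trans (congrArg _ ?_)
  refine HomologicalComplex.from_single_hom_ext ?_
  have h := y.naturality (HomologicalComplex.singleObjXSelf (ComplexShape.up ℤ) 0 X).hom
  refine (congrArg (_ ≫ ·) (HomologicalComplex.singleMapHomologicalComplex_hom_app_self T
    (ComplexShape.up ℤ) 0 X)).trans (Eq.trans ?_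
      (HomologicalComplex.single_map_f_self (ComplexShape.up ℤ) 0 _).symm)
  exact (Category.assoc _ _ _).symm.trans ((congrArg (· ≫ _) h.symm).trans (Category.assoc _ _ _))

theorem bij_sing {A : Type u'} [Category.{v'} A] [Abelian A] [HasExt.{w} A]
    [HasDerivedCategory.{w} A] (α : P ⥤ A) [α.Additive] (X Y : P) :
    Mor.Bij (DF α) (sing X) (sing Y) ↔
      Mor.Bij₀ α X Y ∧ ∀ (j : ℕ) (x : Ext (α.obj X) (α.obj Y) (j + 1)), x = 0 :=
  (Mor.bij_DF_iff α X Y).trans (and_congr_right fun _ => forall_congr' fun _ =>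
    ⟨fun h _ => h.elim _ _, fun h => subsingleton_of_forall_eq 0 h⟩)

theorem En.map (G : P ⥤ Q) [G.Additive] {S : ObjectProperty P} {S' : ObjectProperty Q}
    (h : ∀ X, S X → S' (G.obj X)) {X : HK P} (hX : En S X) : En S' ((KF G).obj X) :=
  Mor.Env.map (A := KF G) (by
    rintro _ ⟨X, hX, rfl⟩
    exact Mor.Env.iso (singIso G X).symm (Mor.Env.of ⟨_, h X hX, rfl⟩)) hX

/-- transport of vanishing along a natural bijection -/
theorem Va.of_equiv (G : P ⥤ Q) [G.Additive] {F : Q} {F' : P}
    (e : ∀ D, (F ⟶ G.obj D) ≃+ (F' ⟶ D))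
    (he : ∀ D D' (g : F ⟶ G.obj D) (v : D ⟶ D'), e D' (g ≫ G.map v) = e D g ≫ v) (X : HK P) :
    Va F ((KF G).obj X) ↔ Va F' X := by
  obtain ⟨X, rfl⟩ := HomotopyCategory.quotient_obj_surjective X
  refine (va_iff F ((G.mapHomologicalComplex (ComplexShape.up ℤ)).obj X)).trans
    (Iff.trans ?_ (va_iff F' X).symm)
  refine forall₃_congr fun i j k => imp_congr_right fun _ => imp_congr_right fun _ => ?_
  constructor
  · intro h g hg
    obtain ⟨g, rfl⟩ := (e _).surjective g
    obtain ⟨f, hf⟩ := h g ((e _).injective ((he _ _ g _).trans (hg.trans (map_zero _).symm)))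
    exact ⟨e _ f, (he _ _ f _).symm.trans (congrArg (e _) hf)⟩
  · intro h g hg
    obtain ⟨f, hf⟩ := h (e _ g) ((he _ _ g _).symm.trans ((congrArg (e _) hg).trans (map_zero _)))
    obtain ⟨f, rfl⟩ := (e _).surjective f
    exact ⟨f, (e _).injective ((he _ _ f _).trans hf)⟩

/-- The derived functor of a composite. -/
noncomputable def dfComp {A : Type u'} [Category.{v'} A] [Abelian A] [HasDerivedCategory.{w} A]
    {Q : Type u} [Category.{v} Q] [Preadditive Q] (G : P ⥤ Q) [G.Additive] (α : Q ⥤ A)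
    [α.Additive] : DF (G ⋙ α) ≅ KF G ⋙ DF α :=
  Functor.isoWhiskerRight
    (Functor.mapHomotopyCategoryCompIso (Iso.refl (G ⋙ α)) (ComplexShape.up ℤ)).symm
    DerivedCategory.Qh ≪≫ Functor.associator _ _ _

theorem Va.iso {F F' : P} {X X' : HK P} (h : Va F X) (e : F ≅ F') (e' : X ≅ X') : Va F' X' :=
  fun m φ => by
    rw [← cancel_epi ((HomotopyCategory.singleFunctor P 0).map e.hom),
      ← cancel_mono (e'.inv⟦m⟧'), Category.assoc, h m (_ ≫ φ ≫ _), comp_zero, zero_comp]

/-- Vanishing from the generators gives vanishing from the envelope. -/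
theorem Va.en {S : ObjectProperty P} {X : HK P} (h : ∀ F, S F → Va F X) {Y : HK P} (hY : En S Y)
    (m : ℤ) (φ : Y ⟶ X⟦m⟧) : φ = 0 := by
  obtain ⟨O, hO⟩ := HasZeroObject.zero (C := P)
  refine Mor.hom_zero_left (S := sg fun F => S F ∨ F = O) ?_
    (En.le_env (S := fun F => S F ∨ F = O) (Or.inr rfl) _
      (Mor.Env.mono (fun _ ⟨F, hF, e⟩ => ⟨F, Or.inl hF, e⟩) _ hY)) m φ
  rintro _ ⟨F, hF | rfl, rfl⟩
  · exact h F hF
  · exact fun _ _ => ((HomotopyCategory.singleFunctor P 0).map_isZero hO).eq_of_src _ _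

end Gen

end Pool.Agent.Lib.MP_d3d358_ag.Th
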