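import Pool.Agent.Lib.MP_d3d358_ag.Th.HDefs
import Pool.Agent.Lib.MP_d3d358_ag.Mor.Dev

/-! Definitions for the vanishing theorems: singles, iterated cocones, powers of a section. -/

set_option autoImplicit false

namespace Pool.Agent.Lib.MP_d3d358_ag.Th

open CategoryTheory Limits Pretriangulated

universe v u

section Gen

variable {P : Type u} [Category.{v} P] [Preadditive P] [HasZeroObject P] [HasBinaryBiproducts P]

/-- The objects with property `S`, put in degree zero. -/
def sg (S : ObjectProperty P) : ObjectProperty (HK P) := fun Z => ∃ X, S X ∧ Z = sing X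

/-- The envelope, without retracts, of the objects with property `S` put in degree zero. -/
abbrev En (S : ObjectProperty P) : ObjectProperty (HK P) := Mor.Env (sg S)

/-- There is no nonzero morphism from `F` to a shift of `X`. -/
def Va (F : P) (X : HK P) : Prop := ∀ (m : ℤ) (φ : sing F ⟶ X⟦m⟧), φ = 0

/-- The class of a complex in the homotopy category. -/
noncomputable abbrev qk (X : CochainComplex P ℤ) : HK P :=
  (HomotopyCategory.quotient P (ComplexShape.up ℤ)).obj X

theorem En.le_env {S : ObjectProperty P} {X : P} (h : S X) : En S ≤ env S :=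
  have : (sg S).Nonempty := ⟨sing X, X, h, rfl⟩
  Mor.Env.le_of_isTriangulated (Q := (sg S).triangEnvelope) (sg S).le_triangEnvelope

end Gen

/-- `Kos Y X Z`: the object `Z` is an iterated cocone of the natural maps in `Y`, from `X`. -/
inductive Kos {K : Type u} [Category.{v} K] [HasZeroObject K] [HasShift K ℤ] [Preadditive K]
    [∀ m : ℤ, (shiftFunctor K m).Additive] [Pretriangulated K] {T : K ⥤ K}
    (Y : Set (𝟭 K ⟶ T)) (X : K) : K → Prop
  | iso {Z : K} (e : Z ≅ X) : Kos Y X Z
  | step {Z Z' : K} (y : 𝟭 K ⟶ T) (hy : y ∈ Y) (a : Z' ⟶ Z) (d : T.obj Z ⟶ Z'⟦(1 : ℤ)⟧)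
      (h : Triangle.mk a (show Z ⟶ T.obj Z from y.app Z) d ∈ distTriang K) :
      Kos Y X Z → Kos Y X Z'

variable {n : ℕ} {C : Cr n}

/-- The natural maps on complexes given by a family of invariant theta functions. -/
def YK {r : ℕ} (y : Fin r → (Fin n → ℂ) → ℂ) (hy : ∀ i, y i ∈ Inv C 1) :
    Set (𝟭 (HK (Obj C)) ⟶ KF (tw C 1)) := Set.range fun i => natK (nat (y i) (hy i))

/-- Morphisms of complexes that are quasi-isomorphisms at every point. -/
def PIso {X Y : HK (Obj C)} (s : X ⟶ Y) : Prop := ∀ z, IsIso ((DF (ev C z)).map s)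

/-- Multiplication `E ⟶ E(s)` by the power `y ^ s`. -/
noncomputable def ypw (y : (Fin n → ℂ) → ℂ) (hy : y ∈ Inv C 1) (s : ℕ) (E : Obj C) :
    E ⟶ twObj s E :=
  (tw0 E).hom ≫ mul E 0 s (y ^ s) (Inv.pow_mem hy s) (zero_add _)

@[simp] theorem val_ypw (y : (Fin n → ℂ) → ℂ) (hy : y ∈ Inv C 1) (s : ℕ) (E : Obj C)
    (z : Fin n → ℂ) : val (ypw y hy s E) z = y z ^ s • (1 : Matrix E.ι E.ι ℂ) :=
  Matrix.mul_one (y z ^ s • (1 : Matrix E.ι E.ι ℂ))

/-- The twists of the regular object by at most `c`. -/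
def FLe (C : Cr n) (c : ℤ) : ObjectProperty (Obj C) :=
  fun E => ∃ a ≤ c, Nonempty (E ≅ twObj a (F0 C))

/-- The twist of a theta bundle by the character `l ↦ exp (2 π i c alt v l)`. -/
@[reducible] noncomputable def ObjL.chr {Λ : Lat n} (E : ObjL Λ) (c : ℝ) (v : Fin n → ℂ) :
    ObjL Λ where
  ι := E.ι
  t := E.t
  ρ l := Complex.exp (2 * Real.pi * Complex.I * (c * alt v l : ℝ)) • E.ρ l
  ρ_unit l := by
    rw [Matrix.conjTranspose_smul, Matrix.smul_mul, Matrix.mul_smul, smul_smul, E.ρ_unit,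
      Complex.star_def, ← Complex.exp_conj, ← Complex.exp_add]
    simp [map_ofNat]
  ρ_blk l i j h := E.ρ_blk l i j fun e => h (by simp [e])
  ρ_mul l l' := by
    rw [Matrix.smul_mul, Matrix.mul_smul, smul_smul, E.ρ_mul, Matrix.mul_smul, ← Complex.exp_add,
      Submodule.coe_add, alt_add_right]
    congr 2; push_cast; ring

end Pool.Agent.Lib.MP_d3d358_ag.Th
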