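import Pool.Agent.Lib.MP_d3d358_ag.Hom.KE
import Pool.Agent.Lib.MP_d3d358_ag.Th.V1

/-! The functor to the derived category is bijective on morphisms that raise the type. -/

set_option autoImplicit false

namespace Pool.Agent.Lib.MP_d3d358_ag.Th

open CategoryTheory Limits Pretriangulated Abelian Van

variable {n : ℕ} {C : Cr n}

theorem exists_ypw_npow (y : (Fin n → ℂ) → ℂ) (hy : y ∈ Inv C 1) (E : Obj C) (s : ℕ) :
    ∃ θ : twObj s E ⟶ (pw (tw C 1) s).obj E, ypw y hy s E ≫ θ = npow (nat y hy) E s := by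
  induction s with
  | zero => exact ⟨(tw0 E).inv, hom_ext fun z => (Matrix.one_mul _).trans
      ((val_ypw y hy 0 E z).trans (by rw [pow_zero, one_smul]; rfl))⟩
  | succ s ih =>
    obtain ⟨θ, hθ⟩ := ih
    have h1 : ypw y hy (s + 1) E ≫ (twtw E s 1 (s + 1 : ℕ) (by simp)).inv =
        ypw y hy s E ≫ (nat y hy).app (twObj s E) := hom_ext fun z => by
      refine (Matrix.one_mul _).trans ((val_ypw y hy (s + 1) E z).trans ?_)
      rw [val_comp, val_ypw, val_nat, Matrix.smul_mul, Matrix.one_mul, smul_smul, pow_succ']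
    refine ⟨(twtw E s 1 (s + 1 : ℕ) (by simp)).inv ≫ (tw C 1).map θ, ?_⟩
    refine (Category.assoc _ _ _).symm.trans ((congrArg (· ≫ _) h1).trans ?_)
    refine (Category.assoc _ _ _).trans ((congrArg (_ ≫ ·) ((nat y hy).naturality θ).symm).trans ?_)
    exact (Category.assoc _ _ _).symm.trans (congrArg (· ≫ _) hθ)

variable {A : Type 1} [Category.{0} A] [Abelian A] [Linear ℂ A] [HasExt.{1} A]
  [HasDerivedCategory.{1} A] (B : BKR C A)

theorem BKR.locP (i : Fin B.r) (F : Obj C) {X : HK (Obj C)} (hX : En ⊤ X) :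
    LocP (DF B.α) (Sh (sing F)) (yK B.y B.y_mem i) X := by
  refine locP_en B.α _ F (fun E φ => ?_) (fun E k x => ?_) hX
  · obtain ⟨s, w, hw⟩ := B.loc_hom i F E φ
    obtain ⟨θ, hθ⟩ := exists_ypw_npow (B.y i) (B.y_mem i) E s
    exact ⟨s, w ≫ θ, by rw [← hθ, B.α.map_comp, B.α.map_comp, hw, Category.assoc]⟩
  · obtain ⟨s, hs⟩ := B.loc_ext i F E k x
    obtain ⟨θ, hθ⟩ := exists_ypw_npow (B.y i) (B.y_mem i) E s
    refine ⟨s, ?_⟩
    rw [← hθ, B.α.map_comp, ← Ext.mk₀_comp_mk₀, ← Ext.comp_assoc_of_third_deg_zero, hs,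
      Ext.zero_comp]

/-- The statement for a bounded complex as target. -/
theorem BKR.good_en {a : ℝ} {F : Obj C} (hF : Le a F) {X : HK (Obj C)} (hX : En (Gt a) X) :
    Mor.Bij (DF B.α) (sing F) X := by
  obtain ⟨τ⟩ := Tower.nonempty (yK B.y B.y_mem) X
  refine morBij_of_sh _ fun G hG => τ.van (DF B.α) (yK_comm B.y B.y_mem) Sh.shift
    (fun i G hG => (B.locP i F (en_top (en_tower gt_tw τ hX i.2.le))).loc _ G hG)
    (fun j G hG => ?_) 0 G hG
  have h1 : En (Gt a) ((pw (KF (tw C 1)) j).obj (τ.Z B.r)) :=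
    pw_prop (fun _ => en_KF _ gt_tw) (en_tower gt_tw τ hX le_rfl) j
  have h2 : PAc ((pw (KF (tw C 1)) j).obj (τ.Z B.r)) := pw_prop (pac_tw 1) (pac_top B.bpf τ) j
  exact Mor.Bij₀.of_subsingleton (va_sh (B.KE hF h1 h2) G hG)
    fun f => (B.acyc (en_top h1) h2).eq_of_tgt _ _

theorem BKR.good {a : ℝ} {F E : Obj C} (hF : Le a F) (hE : Gt a E) :
    Mor.Bij (DF B.α) (sing F) (sing E) := B.good_en hF (en_sing hE)

end Pool.Agent.Lib.MP_d3d358_ag.Th
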