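import Pool.Agent.Lib.MP_d3d358_ag.Hom.Loc
import Pool.Agent.Lib.MP_d3d358_ag.Hom.Sg
import Pool.Agent.Lib.MP_d3d358_ag.Th.V2
import Pool.Agent.Lib.MP_d3d358_ag.Th.Pull
import Pool.Agent.Lib.MP_d3d358_ag.Th.Tens

/-! A bounded complex of theta bundles that is exact at every point receives no morphism from an
object of lower type. -/

set_option autoImplicit false

namespace Pool.Agent.Lib.MP_d3d358_ag.Th

open CategoryTheory Limits Pretriangulated Van

variable {n : ℕ} {C : Cr n}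

/-- The vanishing for a large difference of types. -/
theorem KE_big {r : ℕ} (y : Fin r → (Fin n → ℂ) → ℂ) (hy : ∀ i, y i ∈ Inv C 1)
    (h0 : ∀ z, ∃ i, y i z ≠ 0) : ∃ c : ℝ, ∀ (a : ℝ) (F : Obj C), Le a F → ∀ X : HK (Obj C),
      En (Ge (a + c)) X → PAc X → Va F X := by
  obtain ⟨τ⟩ := Tower.nonempty (yK y hy) (sing (one C))
  have hτ := nul_top h0 τ (en_sing trivial)
  obtain ⟨b, hb⟩ := va_big hτ.1 hτ.2
  refine ⟨-b, fun a F hF X hX h m φ => ?_⟩
  refine van_Q (Nul C) nul_tw (yK_comm y hy) (fun W hW => ?_) ?_ hX ⟨en_top hX, h⟩ m φ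
  · obtain ⟨c, hc⟩ := va_big hW.1 hW.2
    obtain ⟨s, hs⟩ := exists_nat_ge (a - c)
    exact ⟨s, va_sh (va_pw hc s F fun i => (hF i).trans (by linarith))⟩
  · rintro _ ⟨E, hE, rfl⟩
    let τ' : Tower (yK y hy) (sing E) := towerMap τ (KF (tensR E)) (kfSwap (tensTw E 1))
      (fun i => kfSwap_nat (tensTw E 1) (nat (y i) (hy i)) (tens_nat E (y i) (hy i)))
      (singIso (tensR E) (one C) ≪≫ (HomotopyCategory.singleFunctor _ 0).mapIso (oneTens E))
    refine ⟨τ', nul_top h0 τ' (en_sing trivial), fun j => va_sh (va_pw (a := a) (fun G hG => ?_) j F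
      fun i => (hF i).trans (le_add_of_nonneg_right (Nat.cast_nonneg j)))⟩
    refine (Va.of_equiv (tensR E) (fun D => (curry G E D).toAddEquiv)
      (fun D D' g v => curry_comp G E g v) (τ.Z r)).2 (hb _ fun p => ?_)
    have h1 := hG p.1
    have h2 := hE p.2
    change G.t p.1 + -E.t p.2 ≤ b
    linarith

theorem exists_en_ge {a : ℝ} {X : HK (Obj C)} (hX : En (Gt a) X) : ∃ b, a < b ∧ En (Ge b) X := by
  obtain ⟨k, hk⟩ := Mor.Env.exists_level (J := ℕ)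
    (Lo := fun k => sg (Ge (C := C) (a + 1 / ((k : ℝ) + 1))))
    (fun k l hkl _ ⟨E, hE, e⟩ => ⟨E, fun i => le_trans (by gcongr) (hE i), e⟩) (by
      rintro _ ⟨E, hE, rfl⟩
      have h1 : ∀ i, ∃ k : ℕ, 1 / ((k : ℝ) + 1) < E.t i - a := fun i =>
        exists_nat_one_div_lt (sub_pos.2 (hE i))
      choose k hk using h1
      refine ⟨Finset.univ.sup k, en_sing fun i => ?_⟩
      have h2 : (k i : ℝ) ≤ (Finset.univ.sup k : ℕ) := by
        exact_mod_cast Finset.le_sup (f := k) (Finset.mem_univ i)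
      have h3 : 1 / (((Finset.univ.sup k : ℕ) : ℝ) + 1) ≤ 1 / ((k i : ℝ) + 1) := by gcongr
      linarith [hk i]) hX
  exact ⟨_, lt_add_of_pos_right a (by positivity), hk⟩

theorem KE {r : ℕ} (y : Fin r → (Fin n → ℂ) → ℂ) (hy : ∀ i, y i ∈ Inv C 1)
    (h0 : ∀ z, ∃ i, y i z ≠ 0) {a : ℝ} {F : Obj C} (hF : Le a F) {X : HK (Obj C)}
    (hX : En (Gt a) X) (h : PAc X) : Va F X := by
  obtain ⟨c, hc⟩ := KE_big y hy h0
  obtain ⟨b, hab, hb⟩ := exists_en_ge hX
  obtain ⟨m, hm⟩ := exists_nat_ge (c / (b - a))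
  have h1 : c ≤ ((m + 1 : ℕ) : ℝ) ^ 2 * (b - a) := by
    rw [div_le_iff₀ (sub_pos.2 hab)] at hm
    refine hm.trans (mul_le_mul_of_nonneg_right ?_ (sub_pos.2 hab).le)
    push_cast
    nlinarith [Nat.cast_nonneg (α := ℝ) m]
  refine Va.of_pull (Nat.succ_ne_zero m) (hc (((m + 1 : ℕ) : ℝ) ^ 2 * a) (pullObj (m + 1) F)
    (fun i => mul_le_mul_of_nonneg_left (hF i) (sq_nonneg _)) _
    (en_KF _ (fun E hE i => ?_) hb) (h.pull _))
  refine le_trans ?_ (mul_le_mul_of_nonneg_left (hE i) (sq_nonneg ((m + 1 : ℕ) : ℝ)))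
  linarith

theorem BKR.KE {A : Type 1} [Category.{0} A] [Abelian A] [Linear ℂ A] [HasExt.{1} A]
    [HasDerivedCategory.{1} A] (B : BKR C A) {a : ℝ} {F : Obj C} (hF : Le a F) {X : HK (Obj C)}
    (hX : En (Gt a) X) (h : PAc X) : Va F X := Th.KE B.y B.y_mem B.bpf hF hX h

end Pool.Agent.Lib.MP_d3d358_ag.Th
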