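import Pool.Agent.Lib.MP_d3d358_ag.Hom.WinA
import Pool.Agent.Lib.MP_d3d358_ag.Th.V2

/-! The high twists and the low twists of the regular object generate all its twists. -/

set_option autoImplicit false

namespace Pool.Agent.Lib.MP_d3d358_ag.Th

open CategoryTheory Category Limits Pretriangulated Abelian

variable {n : ℕ} {C : Cr n} {A : Type 1} [Category.{0} A] [Abelian A] [Linear ℂ A] [HasExt.{1} A]
  [HasDerivedCategory.{1} A] (B : BKR C A)

/-- Every twist of the regular object comes from the subcategory of high types. -/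
theorem BKR.dense_src (a : ℝ) (c : ℤ) : ∃ Y : HK (PC C a), En ⊤ Y ∧
    Nonempty ((DerivedCategory.singleFunctor A 0).obj (B.α.obj (twObj c (F0 C))) ≅
      (DF (inc C a ⋙ B.α)).obj Y) := by
  have h₀ : En ⊤ (sing (twObj c (F0 C))) := En.singW trivial
  obtain ⟨Y, s, hY, hs⟩ := res_up B.y B.y_mem B.bpf h₀ a
  obtain ⟨Y', hY', ⟨e⟩⟩ := lift_en le_rfl hY
  have := B.isIso h₀ (En.monoW le_top _ hY) hs
  exact ⟨Y', En.monoW le_top _ hY', ⟨((Mor.singDF B.α).app (twObj c (F0 C))).symm ≪≫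
    asIso ((DF B.α).map s) ≪≫ (DF B.α).mapIso e.symm ≪≫
      (dfCompW (inc C a) B.α (Iso.refl _)).app Y'⟩⟩

/-- The low twists generate all twists. -/
theorem BKR.dense_low (c a : ℤ) : Mor.Env (fun W => ∃ b ≤ c,
      W = (DerivedCategory.singleFunctor A 0).obj (B.α.obj (twObj b (F0 C))))
    ((DerivedCategory.singleFunctor A 0).obj (B.α.obj (twObj a (F0 C)))) := by
  obtain ⟨Y, s, hY, hs⟩ := res_down B.y B.y_mem B.bpf a c
  have := B.isIso (En.monoW le_top _ hY) (En.singW trivial) hs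
  refine Mor.Env.iso (asIso ((DF B.α).map s) ≪≫ (Mor.singDF B.α).app (twObj a (F0 C)))
    (Mor.Env.map (A := DF B.α) ?_ hY)
  rintro _ ⟨E, ⟨b, hb, ⟨e⟩⟩, rfl⟩
  exact (Mor.Env.of ⟨b, hb, rfl⟩).iso ((Mor.singDF B.α).app E ≪≫
    (DerivedCategory.singleFunctor A 0).mapIso (B.α.mapIso e)).symm

end Pool.Agent.Lib.MP_d3d358_ag.Th
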