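import Pool.Agent.Lib.MP_d3d358_ag.Hom.Tow

/-! Bijectivity after inverting a natural map: the Verdier quotient, and derived functors on single
complexes. -/

set_option autoImplicit false
set_option linter.unusedSectionVars false

namespace Pool.Agent.Lib.MP_d3d358_ag.Van

open CategoryTheory Limits Pretriangulated Th Abelian
open Mor (singKF singDF)

universe w v u v' u'

section Cat

variable {K : Type u} [Category.{v} K] {D : Type u'} [Category.{v'} D]

theorem npow_nat {T : K ⥤ K} (y : 𝟭 K ⟶ T) {X Y : K} (f : X ⟶ Y) (s : ℕ) :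
    f ≫ npow y Y s = npow y X s ≫ (pw T s).map f := by
  induction s with
  | zero => exact (Category.comp_id f).trans (Category.id_comp f).symm
  | succ s ih =>
    refine (Category.assoc _ _ _).symm.trans ((congrArg (· ≫ _) ih).trans ?_)
    refine (Category.assoc _ _ _).trans (Eq.trans ?_ (Category.assoc _ _ _).symm)
    exact congrArg (_ ≫ ·) (y.naturality ((pw T s).map f))

theorem exists_pwAdd {T : K ⥤ K} (y : 𝟭 K ⟶ T) (X : K) (j s : ℕ) :
    ∃ θ : (pw T s).obj ((pw T j).obj X) ⟶ (pw T (j + s)).obj X,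
      npow y ((pw T j).obj X) s ≫ θ = ypow (pwSeq y X) j s := by
  induction s with
  | zero => exact ⟨𝟙 _, Category.comp_id _⟩
  | succ s ih =>
    obtain ⟨θ, hθ⟩ := ih
    refine ⟨T.map θ, (Category.assoc _ _ _).trans ?_⟩
    exact (congrArg (_ ≫ ·) (y.naturality θ).symm).trans
      ((Category.assoc _ _ _).symm.trans (congrArg (· ≫ _) hθ))

variable [Preadditive K] [Preadditive D] {A : K ⥤ D}

theorem LocS.of_iso_src {F F' : K} {X : ℕ ⥤ K} (r : F' ≅ F) (h : LocS A F X) : LocS A F' X :=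
  fun j e => by
    obtain ⟨i, hi, x, hx⟩ := h j (A.map r.inv ≫ e)
    exact ⟨i, hi, r.hom ≫ x, by
      rw [A.map_comp, hx, Category.assoc, ← A.map_comp_assoc, r.hom_inv_id, A.map_id,
        Category.id_comp]⟩

theorem LocI.of_iso_src {F F' : K} {X : ℕ ⥤ K} (r : F' ≅ F) (h : LocI A F X) : LocI A F' X :=
  fun j x hx => by
    obtain ⟨i, hi, h0⟩ := h j (r.inv ≫ x) (by rw [A.map_comp, hx, comp_zero])
    exact ⟨i, hi, by rw [← cancel_epi r.inv, ← Category.assoc, h0, comp_zero]⟩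

end Cat

section Tri

variable {K : Type u} [Category.{v} K] {D : Type u'} [Category.{v'} D]
  [Preadditive K] [HasZeroObject K] [HasShift K ℤ] [∀ n : ℤ, (shiftFunctor K n).Additive]
  [Pretriangulated K] [Preadditive D] [HasZeroObject D] [HasShift D ℤ]
  [∀ n : ℤ, (shiftFunctor D n).Additive] [Pretriangulated D]
  {T : K ⥤ K} [T.CommShift ℤ] [T.IsTriangulated]

/-- The shifts of an object, up to isomorphism. -/
def Sh (F : K) : ObjectProperty K := fun G => ∃ m : ℤ, Nonempty (G ≅ F⟦m⟧)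

theorem Sh.self (F : K) : Sh F F := ⟨0, ⟨((shiftFunctorZero K ℤ).app F).symm⟩⟩

theorem Sh.shift {F : K} (G : K) (h : Sh F G) (n : ℤ) : Sh F (G⟦n⟧) := by
  obtain ⟨m, ⟨e⟩⟩ := h
  exact ⟨m + n, ⟨(shiftFunctor K n).mapIso e ≪≫ ((shiftFunctorAdd K m n).app F).symm⟩⟩

variable (A : K ⥤ D) [A.CommShift ℤ] [A.IsTriangulated]

theorem locP_sh {y : 𝟭 K ⟶ T} [NatTrans.CommShift y ℤ] {F X : K}
    (h : ∀ n : ℤ, Th.Loc A F (pwSeq y (X⟦n⟧))) : LocP A (Sh F) y X := by
  rintro n G ⟨m, ⟨e⟩⟩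
  have h1 := (loc_pw_iff A F y _).1 (h (n + -m))
  let e1 : G⟦-m⟧ ≅ F :=
    (shiftFunctor K (-m)).mapIso e ≪≫ (shiftFunctorCompIsoId K m (-m) (add_neg_cancel m)).app F
  let e2 : (pwChain y).flip.obj (X⟦n⟧) ⋙ shiftFunctor K (-m) ≅ (pwChain y).flip.obj (X⟦n + -m⟧) :=
    (pwChainShift y (X⟦n⟧) (-m)).symm ≪≫
      (pwChain y).flip.mapIso ((shiftFunctorAdd K n (-m)).app X).symm
  exact (loc_pw_iff A G y _).2
    ⟨LocS.of_shift (-m) ((h1.1.of_retract e2.retract).of_iso_src e1),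
      LocI.of_shift (-m) ((h1.2.of_retract e2.retract).of_iso_src e1)⟩

theorem morBij_of_sh {F X : K} (h : ∀ G, Sh F G → Bij A G X) : Mor.Bij A F X := fun n =>
  (bijective_iff F _).2 (Good.shift (A := A) (P := Sh F) Sh.shift
    (fun G hG => (bij_iff A G X).1 (h G hG)) n F (Sh.self F))

variable [IsTriangulated K] (N : ObjectProperty K) [N.IsTriangulated]

theorem isZero_Q {W : K} (h : N W) : IsZero (N.trW.Q.obj W) := by
  have h1 : IsIso (N.trW.Q.map (contractibleTriangle W).invRotate.mor₁) :=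
    Localization.inverts N.trW.Q N.trW _
      (ObjectProperty.trW.mk N (inv_rot_of_distTriang _ (contractible_distinguished W)) h)
  exact IsZero.of_iso (N.trW.Q.map_isZero ((shiftFunctor K (-1 : ℤ)).map_isZero (isZero_zero K)))
    (asIso (N.trW.Q.map (contractibleTriangle W).invRotate.mor₁)).symm

/-- The Verdier quotient is bijective after inverting `y`, on a source that has no morphism to high
twists of the objects that are killed. -/
theorem loc_Q (hN : ∀ W, N W → N (T.obj W)) (y : 𝟭 K ⟶ T) {F : K}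
    (hF : ∀ W, N W → ∃ s, ∀ φ : F ⟶ (pw T s).obj W, φ = 0) (X : K) :
    Th.Loc N.trW.Q F (pwSeq y X) := fun j => by
  refine ⟨fun e => ?_, fun x hx => ?_⟩
  · obtain ⟨φ, rfl⟩ := Localization.exists_leftFraction N.trW.Q N.trW e
    obtain ⟨W, g, h, hT, hW⟩ := φ.hs
    obtain ⟨s, hs⟩ := hF W hW
    obtain ⟨θ, hθ⟩ := exists_pwAdd y X j s
    have hT' := (pw T s).map_distinguished _ hT
    obtain ⟨x, hx⟩ : ∃ x : F ⟶ (pw T s).obj ((pw T j).obj X),
        φ.f ≫ npow y φ.Y' s = x ≫ (pw T s).map φ.s :=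
      Triangle.coyoneda_exact₂ _ hT' (φ.f ≫ npow y φ.Y' s) (hs _)
    have hi : IsIso (N.trW.Q.map ((pw T s).map φ.s)) :=
      Localization.inverts N.trW.Q N.trW _ (ObjectProperty.trW.mk N hT' (pw_prop hN hW s))
    refine ⟨s, x ≫ θ, ?_⟩
    rw [← hθ, Functor.map_comp, Functor.map_comp, ← Category.assoc]
    congr 1
    rw [← cancel_mono (N.trW.Q.map ((pw T s).map φ.s)), ← Functor.map_comp, ← hx, Category.assoc,
      ← Functor.map_comp, ← npow_nat, Functor.map_comp, Functor.map_comp,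
      MorphismProperty.LeftFraction.map_comp_map_s_assoc]
  · obtain ⟨Y, t, ht, h0⟩ := (MorphismProperty.map_eq_iff_postcomp N.trW.Q N.trW x 0).1
      (hx.trans (N.trW.Q.map_zero _ _).symm)
    obtain ⟨W, f, h, hT, hW⟩ := (N.trW_iff' t).1 ht
    obtain ⟨s, hs⟩ := hF W hW
    obtain ⟨θ, hθ⟩ := exists_pwAdd y X j s
    obtain ⟨w, rfl⟩ : ∃ w : F ⟶ W, x = w ≫ f :=
      Triangle.coyoneda_exact₂ _ hT x (h0.trans zero_comp)
    refine ⟨s, ?_⟩
    rw [← hθ, ← Category.assoc, Category.assoc w, npow_nat, ← Category.assoc,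
      hs (w ≫ npow y W s), zero_comp, zero_comp]

/-- Vanishing on the killed objects of an envelope, from towers on the generators. -/
theorem van_Q (hN : ∀ W, N W → N (T.obj W)) {r : ℕ} {y : Fin r → (𝟭 K ⟶ T)}
    (hy : ∀ i X, T.map ((y i).app X) = (y i).app (T.obj X)) {F : K}
    (hF : ∀ W, N W → ∃ s, ∀ G, Sh F G → ∀ φ : G ⟶ (pw T s).obj W, φ = 0) {S : ObjectProperty K}
    (hS : ∀ E, S E → ∃ τ : Tower y E, N (τ.Z r) ∧
      ∀ j G, Sh F G → ∀ φ : G ⟶ (pw T j).obj (τ.Z r), φ = 0)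
    {X : K} (hX : Mor.Env S X) (h : N X) (m : ℤ) (φ : F ⟶ X⟦m⟧) : φ = 0 := by
  have h1 : Mor.Bij N.trW.Q F X := Mor.Bij.env_right (fun E hE => by
    obtain ⟨τ, h0, h1⟩ := hS E hE
    refine morBij_of_sh _ fun G hG => τ.van N.trW.Q hy Sh.shift
      (fun i G hG => loc_Q N hN _ (fun W hW => (hF W hW).imp fun s hs => hs G hG) _)
      (fun j G hG => ?_) 0 G hG
    exact Mor.Bij₀.of_subsingleton (h1 j G hG)
      fun f => (isZero_Q N (pw_prop hN h0 j)).eq_of_tgt _ _) hX
  exact (h1 m).1 ((isZero_Q N (N.le_shift m _ h)).eq_of_tgt _ _)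

end Tri

section Sing

variable {P : Type u} [Category.{v} P] [Preadditive P] [HasZeroObject P] [HasBinaryBiproducts P]

theorem va_sh {F : P} {X : HK P} (h : Va F X) (G : HK P) (hG : Sh (sing F) G) (φ : G ⟶ X) :
    φ = 0 := by
  obtain ⟨m, ⟨e⟩⟩ := hG
  rw [← cancel_epi e.inv, va_src h m (e.inv ≫ φ), comp_zero]

variable {T : P ⥤ P} [T.Additive]

/-- Powers of a twist on a single complex. -/
noncomputable def pwSing (T : P ⥤ P) [T.Additive] (E : P) :
    ∀ j : ℕ, (pw (KF T) j).obj (sing E) ≅ sing ((pw T j).obj E)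
  | 0 => Iso.refl _
  | j + 1 => (KF T).mapIso (pwSing T E j) ≪≫ (singKF T).app _

/-- The chain of a single complex. -/
noncomputable def chainSing (y : 𝟭 P ⟶ T) (E : P) :
    (pwChain (natK y)).flip.obj (sing E) ≅
      (pwChain y).flip.obj E ⋙ HomotopyCategory.singleFunctor P 0 :=
  NatIso.ofComponents (fun j => pwSing T E j) fun {i j} f =>
    (NatTrans.ofSequence (F := (pwChain (natK y)).flip.obj (sing E))
      (G := (pwChain y).flip.obj E ⋙ HomotopyCategory.singleFunctor P 0)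
      (fun j => (pwSing T E j).hom) fun j => by
        rw [Functor.comp_map, pwChain_succ, pwChain_succ]
        refine (Category.assoc _ _ _).symm.trans ?_
        refine (congrArg (· ≫ _) ((natK y).naturality (pwSing T E j).hom).symm).trans ?_
        exact (Category.assoc _ _ _).trans (congrArg (_ ≫ ·) (natK_sing y _))).naturality f

variable {A : Type u'} [Category.{v'} A] [Abelian A] [HasDerivedCategory.{w} A] [HasExt.{w} A]
  (α : P ⥤ A) [α.Additive] [α.Faithful]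

theorem loc_chain (F : P) (Y : ℕ ⥤ P)
    (h0 : ∀ (j : ℕ) (φ : α.obj F ⟶ α.obj (Y.obj j)), ∃ (i : ℕ) (h : j ≤ i) (w : F ⟶ Y.obj i),
      α.map w = φ ≫ α.map (Y.map (homOfLE h)))
    (h1 : ∀ (j k : ℕ) (x : Ext (α.obj F) (α.obj (Y.obj j)) (k + 1)), ∃ (i : ℕ) (h : j ≤ i),
      x.comp (Ext.mk₀ (α.map (Y.map (homOfLE h)))) (add_zero _) = 0) (m : ℤ) :
    LocS (DF α) (sing F) ((Y ⋙ HomotopyCategory.singleFunctor P 0) ⋙ shiftFunctor _ m) ∧
      LocI (DF α) (sing F) ((Y ⋙ HomotopyCategory.singleFunctor P 0) ⋙ shiftFunctor _ m) := by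
  by_cases hm : m = 0
  · subst hm
    let e : (Y ⋙ HomotopyCategory.singleFunctor P 0) ⋙ shiftFunctor _ (0 : ℤ) ≅
        Y ⋙ HomotopyCategory.singleFunctor P 0 :=
      Functor.isoWhiskerLeft _ (shiftFunctorZero _ ℤ) ≪≫ Functor.rightUnitor _
    refine ⟨LocS.of_retract e.retract fun j f => ?_, LocI.of_retract e.retract fun j x hx => ?_⟩
    · obtain ⟨φ, hφ⟩ := (DerivedCategory.singleFunctor A 0).map_surjective
        ((singDF α).inv.app F ≫ f ≫ (singDF α).hom.app (Y.obj j))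
      obtain ⟨i, hi, w, hw⟩ := h0 j φ
      refine ⟨i, hi, (HomotopyCategory.singleFunctor P 0).map w, ?_⟩
      refine (cancel_mono ((singDF α).hom.app (Y.obj i))).1 ?_
      refine ((singDF α).hom.naturality w).trans (Eq.trans ?_ (Category.assoc _ _ _).symm)
      refine Eq.trans ?_ (congrArg (f ≫ ·) ((singDF α).hom.naturality (Y.map (homOfLE hi))).symm)
      rw [Functor.comp_map, Functor.comp_map, hw, Functor.map_comp, hφ]
      simp
    · obtain ⟨u, rfl⟩ := (HomotopyCategory.singleFunctor P 0).map_surjective (X := F)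
        (Y := Y.obj j) x
      have h2 := (singDF α).hom.naturality u
      rw [Functor.comp_map, hx, zero_comp] at h2
      have h3 : u = 0 := (α ⋙ DerivedCategory.singleFunctor A 0).map_injective
        (((cancel_epi _).1 (h2.symm.trans comp_zero.symm)).trans (Functor.map_zero _ _ _).symm)
      exact ⟨j, le_rfl, by rw [h3, Functor.map_zero, zero_comp]⟩
  · refine ⟨fun j f => ?_, fun j x _ => ⟨j, le_rfl, Mor.sing_hom_zero hm _⟩⟩
    obtain hm | hm := lt_or_gt_of_ne hm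
    · exact ⟨j, le_rfl, 0, Mor.DF_hom_neg α hm _ |>.trans (Mor.DF_hom_neg α hm _).symm⟩
    · obtain ⟨k, rfl⟩ : ∃ k : ℕ, m = ((k + 1 : ℕ) : ℤ) := ⟨(m - 1).toNat, by omega⟩
      obtain ⟨x, rfl⟩ := (Mor.extDF α F (Y.obj j) (k + 1)).surjective f
      obtain ⟨i, hi, hx⟩ := h1 j k x
      refine ⟨i, hi, 0, ((DF α).map_zero _ _).trans ?_⟩
      exact (Mor.extDF_zero α F (Y.obj i) (k + 1)).symm.trans
        ((congrArg _ hx.symm).trans (Mor.extDF_comp α x _))

/-- Bijectivity after inverting `y`, on all bounded complexes. -/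
theorem locP_en (y : 𝟭 P ⟶ T) (F : P)
    (h0 : ∀ (E : P) (φ : α.obj F ⟶ α.obj E), ∃ (s : ℕ) (w : F ⟶ (pw T s).obj E),
      α.map w = φ ≫ α.map (npow y E s))
    (h1 : ∀ (E : P) (k : ℕ) (x : Ext (α.obj F) (α.obj E) (k + 1)), ∃ s : ℕ,
      x.comp (Ext.mk₀ (α.map (npow y E s))) (add_zero _) = 0) {X : HK P} (hX : En ⊤ X) :
    LocP (DF α) (Sh (sing F)) (natK y) X := by
  refine en_le (R := LocP (DF α) (Sh (sing F)) (natK y)) (fun E _ => ?_) X hX
  have hy : ∀ j s, ypow (pwSeq y E) j s =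
      ((pwChain y).flip.obj E).map (homOfLE (Nat.le_add_right j s)) := fun j s => by
    induction s with
    | zero => exact (((pwChain y).flip.obj E).map_id j).symm
    | succ s ih =>
      exact (congrArg₂ (· ≫ ·) ih (pwChain_succ y E (j + s)).symm).trans (chain_comp _ _ _)
  refine locP_sh (DF α) fun m => (loc_pw_iff (DF α) (sing F) (natK y) _).2 ?_
  have h := loc_chain α F ((pwChain y).flip.obj E) (fun j φ => ?_) (fun j k x => ?_) m
  · let e := pwChainShift (natK y) (sing E) m ≪≫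
      Functor.isoWhiskerRight (chainSing y E) (shiftFunctor _ m)
    exact ⟨h.1.of_retract e.retract, h.2.of_retract e.retract⟩
  · obtain ⟨s, w, hw⟩ := h0 _ φ
    obtain ⟨θ, hθ⟩ := exists_pwAdd y E j s
    refine ⟨j + s, Nat.le_add_right j s, w ≫ θ, ?_⟩
    rw [← hy, ← hθ]
    exact (α.map_comp _ _).trans ((congrArg (· ≫ _) hw).trans ((Category.assoc _ _ _).trans
      (congrArg (φ ≫ ·) (α.map_comp _ _).symm)))
  · obtain ⟨s, hs⟩ := h1 _ k x
    obtain ⟨θ, hθ⟩ := exists_pwAdd y E j s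
    refine ⟨j + s, Nat.le_add_right j s, ?_⟩
    rw [← hy, ← hθ]
    refine (congrArg (fun t => x.comp t (add_zero _)) ((congrArg Ext.mk₀ (α.map_comp _ _)).trans
      (Ext.mk₀_comp_mk₀ _ _).symm)).trans ?_
    rw [← Ext.comp_assoc_of_third_deg_zero]
    exact (congrArg (fun t => Ext.comp t _ _) hs).trans (Ext.zero_comp _ _ _ _ _)

end Sing

end Pool.Agent.Lib.MP_d3d358_ag.Van
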