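import Pool.Agent.Lib.MP_d3d358_ag.Th.Van
import Pool.Agent.Lib.MP_d3d358_ag.Hom.Defs
import Pool.Agent.Lib.MP_d3d358_ag.Mor.Sing

/-! Envelopes and pointwise exactness along towers of cocones. -/

set_option autoImplicit false
set_option linter.unusedSectionVars false

namespace Pool.Agent.Lib.MP_d3d358_ag.Van

open CategoryTheory Limits Pretriangulated Th
open Mor (singKF)

universe w v u v' u'

section Gen

variable {P : Type u} [Category.{v} P] [Preadditive P] [HasZeroObject P] [HasBinaryBiproducts P]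
  {Q : Type u'} [Category.{v'} Q] [Preadditive Q] [HasZeroObject Q] [HasBinaryBiproducts Q]

theorem natK_sing {T : P ⥤ P} [T.Additive] (y : 𝟭 P ⟶ T) (X : P) :
    (natK y).app (sing X) ≫ (singKF T).hom.app X =
      (HomotopyCategory.singleFunctor P 0).map (show X ⟶ T.obj X from y.app X) := by
  have h : natC y ((HomologicalComplex.single P (ComplexShape.up ℤ) 0).obj X) ≫
      (HomologicalComplex.singleMapHomologicalComplex T (ComplexShape.up ℤ) 0).hom.app X =
      (HomologicalComplex.single P (ComplexShape.up ℤ) 0).map (show X ⟶ T.obj X from y.app X) := by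
    refine HomologicalComplex.from_single_hom_ext ?_
    rw [HomologicalComplex.comp_f, HomologicalComplex.singleMapHomologicalComplex_hom_app_self,
      HomologicalComplex.single_map_f_self]
    exact (Category.assoc _ _ _).symm.trans ((congrArg (· ≫ _) (y.naturality _).symm).trans
      (Category.assoc _ _ _))
  exact ((HomotopyCategory.quotient P (ComplexShape.up ℤ)).map_comp _ _).symm.trans
    (congrArg (HomotopyCategory.quotient P (ComplexShape.up ℤ)).map h)

theorem en_sing {S : ObjectProperty P} {X : P} (h : S X) : En S (sing X) := Mor.Env.of ⟨X, h, rfl⟩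

theorem en_le {S : ObjectProperty P} {R : ObjectProperty (HK P)} [R.IsClosedUnderIsomorphisms]
    [R.IsTriangulated] (h : ∀ X, S X → R (sing X)) : En S ≤ R :=
  Mor.Env.le_of_isTriangulated (by rintro _ ⟨X, hX, rfl⟩; exact h X hX)

theorem en_mono {S S' : ObjectProperty P} (h : ∀ X, S X → S' X) : En S ≤ En S' :=
  Mor.Env.mono fun _ ⟨X, hX, e⟩ => ⟨X, h X hX, e⟩

theorem en_top {S : ObjectProperty P} {X : HK P} (h : En S X) : En ⊤ X :=
  en_mono (fun _ _ => trivial) X h

theorem en_KF (F : P ⥤ Q) [F.Additive] {S : ObjectProperty P} {S' : ObjectProperty Q}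
    (h : ∀ X, S X → S' (F.obj X)) {X : HK P} (hX : En S X) : En S' ((KF F).obj X) :=
  Mor.Env.map (A := KF F) (by
    rintro _ ⟨X, hX, rfl⟩
    exact (en_sing (h X hX)).iso ((singKF F).app X).symm) hX

theorem va_iso {F : P} {X Y : HK P} (e : X ≅ Y) (h : Va F X) : Va F Y := fun m φ => by
  rw [← cancel_mono (e.inv⟦m⟧'), h m (φ ≫ e.inv⟦m⟧'), zero_comp]

theorem va_iso_left {F G : P} {X : HK P} (e : F ≅ G) (h : Va F X) : Va G X := fun m φ => by
  rw [← cancel_epi ((HomotopyCategory.singleFunctor P 0).map e.hom), h m (_ ≫ φ), comp_zero]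

theorem va_shift {F : P} {X : HK P} (h : Va F X) (a : ℤ) : Va F (X⟦a⟧) := fun m φ => by
  rw [← cancel_mono ((shiftFunctorAdd (HK P) a m).inv.app X), h (a + m) (φ ≫ _), zero_comp]

theorem va_src {F : P} {X : HK P} (h : Va F X) (a : ℤ) (φ : (sing F)⟦a⟧ ⟶ X) : φ = 0 := by
  apply (shiftFunctor (HK P) (-a)).map_injective
  rw [Functor.map_zero, ← cancel_epi
    ((shiftFunctorCompIsoId (HK P) a (-a) (add_neg_cancel a)).inv.app (sing F)), comp_zero]
  exact h (-a) _

/-- Transfer of vanishing along one triangle identity of an adjunction. -/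
theorem va_adj (L : P ⥤ Q) [L.Additive] (G : Q ⥤ P) [G.Additive] (η : 𝟭 P ⟶ L ⋙ G)
    (ε : G ⋙ L ⟶ 𝟭 Q) (h : ∀ X, η.app (G.obj X) ≫ G.map (ε.app X) = 𝟙 (G.obj X)) {F : P}
    {Z : HK Q} (hv : Va (L.obj F) Z) : Va F ((KF G).obj Z) := fun m φ => by
  have key : ∀ (W : HK Q) (ψ : sing F ⟶ (KF G).obj W),
      (∀ χ : sing (L.obj F) ⟶ W, χ = 0) → ψ = 0 := by
    intro W ψ hW
    obtain ⟨W, rfl⟩ : ∃ W' : CochainComplex Q ℤ, W = qk W' := ⟨W.as, rfl⟩
    let e : (KF L).obj ((KF G).obj (qk W)) ⟶ qk W :=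
      (NatTrans.mapHomotopyCategory ε (ComplexShape.up ℤ)).app (qk W)
    have h1 : (KF L).map ψ ≫ e = 0 := by
      rw [← cancel_epi ((singKF L).inv.app F), comp_zero]
      exact hW _
    let u : (KF G).obj (qk W) ⟶ (KF G).obj ((KF L).obj ((KF G).obj (qk W))) :=
      (natK η).app ((KF G).obj (qk W))
    have h2 : u ≫ (KF G).map e = 𝟙 _ := by
      have h3 : natC η ((G.mapHomologicalComplex (ComplexShape.up ℤ)).obj W) ≫
          (G.mapHomologicalComplex (ComplexShape.up ℤ)).map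
            ((NatTrans.mapHomologicalComplex ε (ComplexShape.up ℤ)).app W) = 𝟙 _ := by
        ext i
        exact h _
      exact ((HomotopyCategory.quotient P (ComplexShape.up ℤ)).map_comp _ _).symm.trans
        ((congrArg (HomotopyCategory.quotient P (ComplexShape.up ℤ)).map h3).trans
          (CategoryTheory.Functor.map_id _ _))
    obtain ⟨v, h4⟩ : ∃ v : sing F ⟶ (KF G).obj ((KF L).obj (sing F)),
        ψ ≫ u = v ≫ (KF G).map ((KF L).map ψ) := by
      obtain ⟨ψ, rfl⟩ := (HomotopyCategory.quotient P (ComplexShape.up ℤ)).map_surjective ψ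
      exact ⟨(natK η).app (sing F),
        (natK η).naturality ((HomotopyCategory.quotient P (ComplexShape.up ℤ)).map ψ)⟩
    calc ψ = (ψ ≫ u) ≫ (KF G).map e := by rw [Category.assoc, h2, Category.comp_id]
      _ = 0 := by rw [h4, Category.assoc, ← Functor.map_comp, h1, Functor.map_zero, comp_zero]
  rw [← cancel_mono (((KF G).commShiftIso m).inv.app Z), zero_comp]
  exact key _ _ (hv m)

/-- A natural isomorphism between composites, on homotopy categories. -/
noncomputable def kfSwap {G₁ G₂ H₁ H₂ : P ⥤ P} [G₁.Additive] [G₂.Additive] [H₁.Additive]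
    [H₂.Additive] (e : G₁ ⋙ G₂ ≅ H₁ ⋙ H₂) (Z : HK P) :
    (KF G₂).obj ((KF G₁).obj Z) ≅ (KF H₂).obj ((KF H₁).obj Z) :=
  (HomotopyCategory.quotient P (ComplexShape.up ℤ)).mapIso
    ((NatIso.mapHomologicalComplex e (ComplexShape.up ℤ)).app Z.as)

theorem kfSwap_nat {T G : P ⥤ P} [T.Additive] [G.Additive] (e : T ⋙ G ≅ G ⋙ T) (y : 𝟭 P ⟶ T)
    (h : ∀ X, G.map (show X ⟶ T.obj X from y.app X) ≫ e.hom.app X = y.app (G.obj X)) (Z : HK P) :
    (KF G).map (show Z ⟶ (KF T).obj Z from (natK y).app Z) ≫ (kfSwap e Z).hom =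
      (natK y).app ((KF G).obj Z) := by
  obtain ⟨Z⟩ := Z
  have h1 : (G.mapHomologicalComplex (ComplexShape.up ℤ)).map (natC y Z) ≫
      (NatIso.mapHomologicalComplex e (ComplexShape.up ℤ)).hom.app Z =
      natC y ((G.mapHomologicalComplex (ComplexShape.up ℤ)).obj Z) := by
    ext i
    exact h _
  exact ((HomotopyCategory.quotient P (ComplexShape.up ℤ)).map_comp _ _).symm.trans
    (congrArg (HomotopyCategory.quotient P (ComplexShape.up ℤ)).map h1)

end Gen

section Tower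

variable {K : Type u} [Category.{v} K] [Preadditive K] [HasZeroObject K] [HasShift K ℤ]
  [∀ n : ℤ, (shiftFunctor K n).Additive] [Pretriangulated K] {T : K ⥤ K}

theorem pw_prop {R : K → Prop} (hT : ∀ X, R X → R (T.obj X)) {X : K} (hX : R X) (j : ℕ) :
    R ((pw T j).obj X) := by
  induction j with
  | zero => exact hX
  | succ j ih => exact hT _ ih

/-- A triangulated property kept by the twist goes up a tower. -/
theorem tower_from {r : ℕ} {y : Fin r → (𝟭 K ⟶ T)} {X : K} (τ : Tower y X) (R : ObjectProperty K)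
    [R.IsClosedUnderIsomorphisms] [R.IsTriangulatedClosed₁] (hT : ∀ X, R X → R (T.obj X)) {i : ℕ}
    (hi : R (τ.Z i)) {j : ℕ} (hij : i ≤ j) (hj : j ≤ r) : R (τ.Z j) := by
  induction j, hij using Nat.le_induction with
  | base => exact hi
  | succ j hij ih =>
    have h := ih (Nat.le_of_succ_le hj)
    exact R.ext_of_isTriangulatedClosed₁ _ (τ.dist ⟨j, hj⟩) h (hT _ h)

theorem tower_prop {r : ℕ} {y : Fin r → (𝟭 K ⟶ T)} {X : K} (τ : Tower y X) (R : ObjectProperty K)
    [R.IsClosedUnderIsomorphisms] [R.IsTriangulatedClosed₁] (hT : ∀ X, R X → R (T.obj X))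
    (hX : R X) {j : ℕ} (hj : j ≤ r) : R (τ.Z j) :=
  tower_from τ R hT (R.prop_of_iso τ.e.symm hX) (Nat.zero_le j) hj

/-- The image of a tower by a triangulated functor that commutes with the twist. -/
noncomputable def towerMap {r : ℕ} {y : Fin r → (𝟭 K ⟶ T)} {X : K} (τ : Tower y X) (Φ : K ⥤ K)
    [Φ.CommShift ℤ] [Φ.IsTriangulated] (c : ∀ Z, Φ.obj (T.obj Z) ≅ T.obj (Φ.obj Z))
    (hc : ∀ i Z, Φ.map (show Z ⟶ T.obj Z from (y i).app Z) ≫ (c Z).hom = (y i).app (Φ.obj Z))
    {X' : K} (e : Φ.obj X ≅ X') : Tower y X' where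
  Z i := Φ.obj (τ.Z i)
  e := Φ.mapIso τ.e ≪≫ e
  a i := Φ.map (τ.a i)
  d i := (c _).inv ≫ Φ.map (τ.d i) ≫ (Φ.commShiftIso 1).hom.app _
  dist i := by
    refine isomorphic_distinguished _ (Φ.map_distinguished _ (τ.dist i)) _ (Iso.symm ?_)
    refine Triangle.isoMk _ _ (Iso.refl _) (Iso.refl _) (c _)
      ((Category.comp_id _).trans (Category.id_comp _).symm)
      ((hc i _).trans (Category.id_comp _).symm) ?_
    refine Eq.trans ?_ (Iso.hom_inv_id_assoc (c _) _).symm
    exact (congrArg (_ ≫ ·) ((shiftFunctor K (1 : ℤ)).map_id _)).trans (Category.comp_id _)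

end Tower

section Pac

variable {n : ℕ} {C : Cr n}

/-- Complexes that are exact at the point `z`. -/
def PAt (C : Cr n) (z : Fin n → ℂ) : ObjectProperty (HK (Obj C)) :=
  fun X => IsZero ((DF (ev C z)).obj X)

instance (z : Fin n → ℂ) : (PAt C z).IsClosedUnderIsomorphisms where
  of_iso e h := IsZero.of_iso h ((DF (ev C z)).mapIso e).symm

instance (z : Fin n → ℂ) : (PAt C z).IsTriangulatedClosed₁ :=
  ObjectProperty.IsTriangulatedClosed₁.mk' fun T hT h2 h3 =>
    Triangle.isZero₁_of_isZero₂₃ _ ((DF (ev C z)).map_distinguished T hT) h2 h3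

theorem pAt_tw {z : Fin n → ℂ} (a : ℤ) (X : HK (Obj C)) (h : PAt C z X) :
    PAt C z ((KF (tw C a)).obj X) := h

theorem pac_tw (a : ℤ) (X : HK (Obj C)) (h : PAc X) : PAc ((KF (tw C a)).obj X) := h

theorem isIso_natK {y : (Fin n → ℂ) → ℂ} (hy : y ∈ Inv C 1) {z : Fin n → ℂ} (h : y z ≠ 0)
    (X : HK (Obj C)) : IsIso ((DF (ev C z)).map ((natK (nat y hy)).app X)) := by
  obtain ⟨X⟩ := X
  have h1 : ∀ E : Obj C, IsIso ((ev C z).map ((nat y hy).app E)) := fun E => by
    refine ⟨ModuleCat.ofHom ((y z)⁻¹ • (1 : Matrix E.ι E.ι ℂ)).mulVecLin, ?_, ?_⟩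
    · ext1
      refine (Matrix.mulVecLin_mul ((y z)⁻¹ • (1 : Matrix E.ι E.ι ℂ))
        (y z • (1 : Matrix E.ι E.ι ℂ))).symm.trans ?_
      rw [Matrix.smul_mul, Matrix.one_mul, smul_smul, inv_mul_cancel₀ h, one_smul]
      exact Matrix.mulVecLin_one
    · ext1
      refine (Matrix.mulVecLin_mul (y z • (1 : Matrix E.ι E.ι ℂ))
        ((y z)⁻¹ • (1 : Matrix E.ι E.ι ℂ))).symm.trans ?_
      rw [Matrix.smul_mul, Matrix.one_mul, smul_smul, mul_inv_cancel₀ h, one_smul]
      exact Matrix.mulVecLin_one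
  have h2 : IsIso (((ev C z).mapHomologicalComplex (ComplexShape.up ℤ)).map (natC (nat y hy) X)) :=
    @HomologicalComplex.Hom.isIso_of_components _ _ _ _ _ _ _ _ fun i => h1 (X.X i)
  exact inferInstanceAs (IsIso (DerivedCategory.Qh.map ((HomotopyCategory.quotient _ _).map
    (((ev C z).mapHomologicalComplex (ComplexShape.up ℤ)).map (natC (nat y hy) X)))))

/-- The natural maps on complexes given by invariant theta functions. -/
noncomputable abbrev yK {r : ℕ} (y : Fin r → (Fin n → ℂ) → ℂ) (hy : ∀ i, y i ∈ Inv C 1) (i : Fin r) :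
    𝟭 (HK (Obj C)) ⟶ KF (tw C 1) := natK (nat (y i) (hy i))

theorem yK_comm {r : ℕ} (y : Fin r → (Fin n → ℂ) → ℂ) (hy : ∀ i, y i ∈ Inv C 1) (i : Fin r)
    (X : HK (Obj C)) :
    (KF (tw C 1)).map ((yK y hy i).app X) = (yK y hy i).app ((KF (tw C 1)).obj X) :=
  natK_comm (nat (y i) (hy i)) (fun _ => hom_ext fun _ => rfl) X

/-- The top of a tower is exact at every point. -/
theorem pac_top {r : ℕ} {y : Fin r → (Fin n → ℂ) → ℂ} {hy : ∀ i, y i ∈ Inv C 1}
    (h0 : ∀ z, ∃ i, y i z ≠ 0) {X : HK (Obj C)} (τ : Tower (yK y hy) X) : PAc (τ.Z r) := fun z => by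
  obtain ⟨i, hi⟩ := h0 z
  refine tower_from τ (PAt C z) (pAt_tw 1) (i := i + 1) ?_ i.2 le_rfl
  exact (Triangle.isZero₁_iff_isIso₂ _ ((DF (ev C z)).map_distinguished _ (τ.dist i))).2
    (isIso_natK (hy i) hi _)

theorem ge_tw {b : ℝ} (E : Obj C) (h : Ge b E) : Ge b ((tw C 1).obj E) := fun i =>
  (h i).trans (le_add_of_nonneg_right (by positivity))

theorem en_tower {r : ℕ} {y : Fin r → (Fin n → ℂ) → ℂ} {hy : ∀ i, y i ∈ Inv C 1}
    {S : ObjectProperty (Obj C)} (hS : ∀ E, S E → S ((tw C 1).obj E)) {X : HK (Obj C)}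
    (τ : Tower (yK y hy) X) (hX : En S X) {i : ℕ} (hi : i ≤ r) : En S (τ.Z i) :=
  tower_prop τ (En S) (fun _ => en_KF _ hS) hX hi

/-- Vanishing for all low sources is kept by positive twists. -/
theorem va_tw {a : ℝ} (W : HK (Obj C)) (h : ∀ F, Le a F → Va F W) (F : Obj C)
    (hF : Le (a + C.k) F) : Va F ((KF (tw C 1)).obj W) := by
  refine va_adj (tw C (-1)) (tw C 1)
    ⟨fun E => (tw0 E).hom ≫ (twtw E (-1) 1 0 (by simp)).inv, fun _ _ u => hom_ext fun z => ?_⟩
    ⟨fun E => (twtw E 1 (-1) 0 (by simp)).hom ≫ (tw0 E).inv, fun _ _ u => hom_ext fun z => ?_⟩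
    (fun E => hom_ext fun z => ?_) (h _ fun i => ?_)
  · exact (congrArg (· * val u z) (Matrix.mul_one 1)).trans ((Matrix.one_mul _).trans
      ((Matrix.mul_one _).symm.trans (congrArg (val u z * ·) (Matrix.mul_one 1).symm)))
  · exact (congrArg (· * val u z) (Matrix.mul_one 1)).trans ((Matrix.one_mul _).trans
      ((Matrix.mul_one _).symm.trans (congrArg (val u z * ·) (Matrix.mul_one 1).symm)))
  · exact (congrArg₂ (· * ·) (Matrix.mul_one 1) (Matrix.mul_one 1)).trans (Matrix.mul_one 1)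
  · have h2 := hF i
    change F.t i + ((-1 : ℤ) : ℝ) * C.k ≤ a
    push_cast
    linarith

theorem va_pw {a : ℝ} {W : HK (Obj C)} (h : ∀ F, Le a F → Va F W) (j : ℕ) (F : Obj C)
    (hF : Le (a + j) F) : Va F ((pw (KF (tw C 1)) j).obj W) := by
  induction j generalizing F with
  | zero => exact h F (by simpa using hF)
  | succ j ih =>
    refine va_tw _ ih F fun i => (hF i).trans ?_
    have h1 : (1 : ℝ) ≤ C.k := by exact_mod_cast C.k_pos
    push_cast
    linarith

/-- Bounded complexes that are exact at every point. -/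
def Nul (C : Cr n) : ObjectProperty (HK (Obj C)) := fun X => En ⊤ X ∧ PAc X

instance : (Nul C).IsClosedUnderIsomorphisms where
  of_iso e h := ⟨h.1.iso e, fun z => IsZero.of_iso (h.2 z) ((DF (ev C z)).mapIso e).symm⟩

instance : (Nul C).IsTriangulated where
  exists_zero := ⟨_, isZero_zero _, Mor.Env.zero (isZero_zero _),
    fun z => (DF (ev C z)).map_isZero (isZero_zero _)⟩
  isStableUnderShiftBy a := ⟨fun X h => ⟨h.1.shift a, fun z =>
    IsZero.of_iso ((shiftFunctor _ a).map_isZero (h.2 z)) (((DF (ev C z)).commShiftIso a).app X)⟩⟩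
  ext₂' T hT h1 h3 := ObjectProperty.le_isoClosure _ _ ⟨Mor.Env.ext₂ T hT h1.1 h3.1, fun z =>
    Triangle.isZero₂_of_isZero₁₃ _ ((DF (ev C z)).map_distinguished T hT) (h1.2 z) (h3.2 z)⟩

theorem nul_tw (X : HK (Obj C)) (h : Nul C X) : Nul C ((KF (tw C 1)).obj X) :=
  ⟨en_KF _ (fun _ _ => trivial) h.1, pac_tw 1 X h.2⟩

theorem nul_top {r : ℕ} {y : Fin r → (Fin n → ℂ) → ℂ} {hy : ∀ i, y i ∈ Inv C 1}
    (h0 : ∀ z, ∃ i, y i z ≠ 0) {X : HK (Obj C)} (τ : Tower (yK y hy) X) (hX : En ⊤ X) :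
    Nul C (τ.Z r) := ⟨en_tower (fun _ _ => trivial) τ hX le_rfl, pac_top h0 τ⟩

theorem gt_tw {b : ℝ} (E : Obj C) (h : Gt b E) : Gt b ((tw C 1).obj E) := fun i =>
  (h i).trans_le (le_add_of_nonneg_right (by positivity))

end Pac

end Pool.Agent.Lib.MP_d3d358_ag.Van
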