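import Pool.Agent.Lib.MP_d3d358_ag.Hom.Defs
import Pool.Agent.Lib.MP_d3d358_ag.Mor.Sing

/-! Resolutions of complexes of theta bundles by high and by low twists. -/

set_option autoImplicit false
set_option linter.unusedSectionVars false

namespace Pool.Agent.Lib.MP_d3d358_ag.Th

open CategoryTheory Category Limits Pretriangulated

universe w v u v' u'

section Tri

variable {K : Type u} [Category.{v} K] [HasZeroObject K] [HasShift K ℤ] [Preadditive K]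
  [∀ m : ℤ, (shiftFunctor K m).Additive] [Pretriangulated K]
  {D : Type u'} [Category.{v'} D] [HasZeroObject D] [HasShift D ℤ] [Preadditive D]
  [∀ m : ℤ, (shiftFunctor D m).Additive] [Pretriangulated D]

theorem trW_mapW (F : K ⥤ D) [F.CommShift ℤ] [F.IsTriangulated] {S : ObjectProperty K}
    {S' : ObjectProperty D} (h : ∀ X, S X → S' (F.obj X)) {X Y : K} {f : X ⟶ Y} (hf : S.trW f) :
    S'.trW (F.map f) := by
  obtain ⟨Z, g, d, hT, hZ⟩ := hf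
  exact ObjectProperty.trW.mk S' (F.map_distinguished _ hT) (h Z hZ)

/-- Objects of an envelope lift along a fully faithful triangulated functor. -/
theorem lift_envW (F : K ⥤ D) [F.CommShift ℤ] [F.IsTriangulated] [F.Full] [F.Faithful]
    {S : ObjectProperty K} {S' : ObjectProperty D}
    (h : ∀ Y, S' Y → ∃ X, Mor.Env S X ∧ Nonempty (F.obj X ≅ Y)) {Y : D} (hY : Mor.Env S' Y) :
    ∃ X, Mor.Env S X ∧ Nonempty (F.obj X ≅ Y) := by
  refine Mor.Env.induction (Q := fun Y => ∃ X, Mor.Env S X ∧ Nonempty (F.obj X ≅ Y)) h ?_ ?_ ?_ hY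
  · intro Y hY
    obtain ⟨Z, hZ⟩ := HasZeroObject.zero (C := K)
    exact ⟨Z, Mor.Env.zero hZ, ⟨(F.map_isZero hZ).iso hY⟩⟩
  · rintro Y m - ⟨X, hX, ⟨e⟩⟩
    exact ⟨X⟦m⟧, hX.shift m, ⟨(F.commShiftIso m).app X ≪≫ (shiftFunctor D m).mapIso e⟩⟩
  · rintro T hT - - ⟨X₁, h₁, ⟨e₁⟩⟩ ⟨X₃, h₃, ⟨e₃⟩⟩
    obtain ⟨d, hd⟩ := F.map_surjective
      (e₃.hom ≫ T.mor₃ ≫ e₁.inv⟦(1 : ℤ)⟧' ≫ (F.commShiftIso (1 : ℤ)).inv.app X₁)
    obtain ⟨X₂, f, g, hX⟩ := distinguished_cocone_triangle₂ d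
    have hF := F.map_distinguished _ hX
    have c : (F.mapTriangle.obj (Triangle.mk f g d)).mor₃ ≫ e₁.hom⟦(1 : ℤ)⟧' = e₃.hom ≫ T.mor₃ := by
      change (F.map d ≫ (F.commShiftIso (1 : ℤ)).hom.app X₁) ≫ e₁.hom⟦(1 : ℤ)⟧' = _
      rw [hd]
      simp [← Functor.map_comp]
    obtain ⟨b, hb₁, hb₂⟩ := complete_distinguished_triangle_morphism₂ _ _ hF hT e₁.hom e₃.hom c
    have : IsIso b := isIso₂_of_isIso₁₃ (Triangle.homMk _ _ e₁.hom b e₃.hom hb₁ hb₂ c) hF hT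
      (inferInstanceAs (IsIso e₁.hom)) (inferInstanceAs (IsIso e₃.hom))
    exact ⟨X₂, Mor.Env.ext₂ _ hX h₁ h₃, ⟨@asIso _ _ _ _ b this⟩⟩

variable [IsTriangulated K] {T : K ⥤ K} [T.CommShift ℤ] [T.IsTriangulated] {Y : Set (𝟭 K ⟶ T)}

/-- The cone of an iterated cocone is built from twisted objects. -/
theorem Kos.upW {S S' : ObjectProperty K} (h : ∀ Z, Mor.Env S Z → Mor.Env S' (T.obj Z))
    (h' : S' ≤ S) {X Z : K} (hX : Mor.Env S X) (hZ : Kos Y X Z) :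
    Mor.Env S Z ∧ ∃ a : Z ⟶ X, (Mor.Env S').trW a := by
  induction hZ with
  | iso e => exact ⟨hX.iso e.symm, e.hom, (Mor.Env S').trW_of_isIso _⟩
  | step y hy a d hT _ ih =>
    obtain ⟨hZ, b, hb⟩ := ih
    exact ⟨Mor.Env.ext₁ _ hT hZ (Mor.Env.mono h' _ (h _ hZ)), a ≫ b,
      (Mor.Env S').trW.comp_mem _ _ (ObjectProperty.trW.mk _ hT (h _ hZ)) hb⟩

/-- The highest twist in an iterated cocone. -/
theorem Kos.downW (L : ℕ → ObjectProperty K) (hL : ∀ i, L i ≤ L (i + 1))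
    (h : ∀ i Z, Mor.Env (L i) Z → Mor.Env (L (i + 1)) (T.obj Z)) (X : ℕ → K)
    (e : ∀ i, T.obj (X i) ≅ X (i + 1)) (hX : Mor.Env (L 1) (X 0)) {Z : K} (hZ : Kos Y (X 0) Z) :
    ∃ i, Mor.Env (L (i + 1)) Z ∧ ∃ (m : ℤ) (a : (X i)⟦m⟧ ⟶ Z), (Mor.Env (L i)).trW a := by
  induction hZ with
  | iso e' =>
    exact ⟨0, hX.iso e'.symm, 0, ((shiftFunctorZero K ℤ).app (X 0) ≪≫ e'.symm).hom,
      (Mor.Env (L 0)).trW_of_isIso _⟩
  | @step Z Z' y hy a d hT _ ih =>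
    obtain ⟨i, hZ, m, b, hb⟩ := ih
    obtain ⟨δ, w, hδ⟩ := Mor.exists_invRot _ hT
    let j : (X (i + 1))⟦m + -1⟧ ≅ (T.obj ((X i)⟦m⟧))⟦(-1 : ℤ)⟧ :=
      (shiftFunctorAdd K m (-1)).app _ ≪≫ (shiftFunctor K (-1 : ℤ)).mapIso
        ((shiftFunctor K m).mapIso (e i).symm ≪≫ ((T.commShiftIso m).app (X i)).symm)
    refine ⟨i + 1, Mor.Env.ext₁ _ hT (Mor.Env.mono (hL _) _ hZ) (h _ _ hZ), m + -1,
      j.hom ≫ (T.map b)⟦(-1 : ℤ)⟧' ≫ δ, ?_⟩
    exact (Mor.Env (L (i + 1))).trW.comp_mem _ _ ((Mor.Env (L (i + 1))).trW_of_isIso _)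
      ((Mor.Env (L (i + 1))).trW.comp_mem _ _ ((trW_mapW T (h i) hb).shift _)
        (ObjectProperty.trW.mk _ hδ hZ))

end Tri

section Gen

variable {P : Type u} [Category.{v} P] [Preadditive P] [HasZeroObject P] [HasBinaryBiproducts P]
  {Q : Type u'} [Category.{v'} Q] [Preadditive Q] [HasZeroObject Q] [HasBinaryBiproducts Q]

theorem En.monoW {S S' : ObjectProperty P} (h : S ≤ S') : En S ≤ En S' :=
  Mor.Env.mono fun _ ⟨X, hX, e⟩ => ⟨X, h X hX, e⟩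

theorem En.singW {S : ObjectProperty P} {X : P} (h : S X) : En S (sing X) := Mor.Env.of ⟨X, h, rfl⟩

theorem En.mapW (G : P ⥤ Q) [G.Additive] {S : ObjectProperty P} {S' : ObjectProperty Q}
    (h : ∀ X, S X → S' (G.obj X)) {X : HK P} (hX : En S X) : En S' ((KF G).obj X) :=
  Mor.Env.map (A := KF G) (by
    rintro _ ⟨E, hE, rfl⟩
    exact (En.singW (h E hE)).iso ((Mor.singKF G).app E).symm) hX

theorem isIso_KF_natKW (G : P ⥤ Q) [G.Additive] {T : P ⥤ P} [T.Additive] (ν : 𝟭 P ⟶ T)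
    (h : ∀ E, IsIso (G.map (ν.app E))) (Z : HK P) : IsIso ((KF G).map ((natK ν).app Z)) := by
  have h₁ : ∀ i, IsIso (((G.mapHomologicalComplex (ComplexShape.up ℤ)).map
      ((NatTrans.mapHomologicalComplex ν (ComplexShape.up ℤ)).app Z.as)).f i) := fun i => h _
  have h₂ := HomologicalComplex.Hom.isIso_of_components ((G.mapHomologicalComplex
    (ComplexShape.up ℤ)).map ((NatTrans.mapHomologicalComplex ν (ComplexShape.up ℤ)).app Z.as))
  exact inferInstanceAs (IsIso ((HomotopyCategory.quotient Q (ComplexShape.up ℤ)).map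
    ((G.mapHomologicalComplex (ComplexShape.up ℤ)).map
      ((NatTrans.mapHomologicalComplex ν (ComplexShape.up ℤ)).app Z.as))))

theorem isIso_natKW {T : P ⥤ P} [T.Additive] (ν : 𝟭 P ⟶ T) (h : ∀ E, IsIso (ν.app E)) (Z : HK P) :
    IsIso ((natK ν).app Z) := by
  have h₁ : ∀ i, IsIso (((NatTrans.mapHomologicalComplex ν (ComplexShape.up ℤ)).app Z.as).f i) :=
    fun i => h _
  have h₂ := HomologicalComplex.Hom.isIso_of_components
    ((NatTrans.mapHomologicalComplex ν (ComplexShape.up ℤ)).app Z.as)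
  exact inferInstanceAs (IsIso ((HomotopyCategory.quotient P (ComplexShape.up ℤ)).map
    ((NatTrans.mapHomologicalComplex ν (ComplexShape.up ℤ)).app Z.as)))

/-- The derived functor of a composite. -/
noncomputable def dfCompW {A : Type u'} [Category.{v'} A] [Abelian A] [HasDerivedCategory.{w} A]
    {Q : Type u} [Category.{v} Q] [Preadditive Q] (G : P ⥤ Q) [G.Additive] (α : Q ⥤ A)
    [α.Additive] {β : P ⥤ A} [β.Additive] (e : G ⋙ α ≅ β) : KF G ⋙ DF α ≅ DF β :=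
  Functor.isoWhiskerRight (Functor.mapHomotopyCategoryCompIso e (ComplexShape.up ℤ))
    DerivedCategory.Qh

end Gen

variable {n : ℕ} {C : Cr n}

/-- Composition of twist functors. -/
noncomputable def twCompW (C : Cr n) (a b c : ℤ) (h : a + b = c) : tw C a ⋙ tw C b ≅ tw C c :=
  NatIso.ofComponents (fun E => twtw E a b c h) fun u => hom_ext fun z =>
    (Matrix.one_mul (val u z)).trans (Matrix.mul_one (val u z)).symm

/-- The trivial twist. -/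
noncomputable def twZeroW (C : Cr n) : 𝟭 (Obj C) ≅ tw C 0 :=
  NatIso.ofComponents tw0 fun u => hom_ext fun z =>
    (Matrix.one_mul (val u z)).trans (Matrix.mul_one (val u z)).symm

/-- Composition of twists of complexes. -/
noncomputable def kfTwW (a b c : ℤ) (h : a + b = c) (X : HK (Obj C)) :
    (KF (tw C b)).obj ((KF (tw C a)).obj X) ≅ (KF (tw C c)).obj X :=
  (Functor.mapHomotopyCategoryCompIso (twCompW C a b c h) (ComplexShape.up ℤ)).app X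

/-- The trivial twist of a complex. -/
noncomputable def kfZeroW (X : HK (Obj C)) : X ≅ (KF (tw C 0)).obj X :=
  @asIso _ _ _ _ ((natK (twZeroW C).hom).app X) (isIso_natKW _ (fun _ => inferInstance) X)

/-- The fibres do not see the twists. -/
noncomputable def dfTwW (C : Cr n) (a : ℤ) (z : Fin n → ℂ) :
    KF (tw C a) ⋙ DF (ev C z) ≅ DF (ev C z) := dfCompW (tw C a) (ev C z) (Iso.refl _)

theorem PIso.twW {X Y : HK (Obj C)} {s : X ⟶ Y} (h : PIso s) (a : ℤ) :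
    PIso ((KF (tw C a)).map s) := fun z => (NatIso.isIso_map_iff (dfTwW C a z) s).2 (h z)

theorem PIso.compW {X Y Z : HK (Obj C)} {s : X ⟶ Y} {t : Y ⟶ Z} (hs : PIso s) (ht : PIso t) :
    PIso (s ≫ t) := fun z => by
  have := hs z
  have := ht z
  rw [Functor.map_comp]
  infer_instance

theorem PIso.ofIsoW {X Y : HK (Obj C)} (e : X ≅ Y) : PIso e.hom := fun _ => inferInstance

theorem PIso.shiftW {X Y : HK (Obj C)} {s : X ⟶ Y} (h : PIso s) (m : ℤ) : PIso (s⟦m⟧') :=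
  fun z => Mor.isIso_map_shift s (h z) m

theorem PAc.pIsoW {T : Triangle (HK (Obj C))} (hT : T ∈ distTriang _) (h : PAc T.obj₁) :
    PIso T.mor₂ := fun z =>
  (Triangle.isZero₁_iff_isIso₂ _ ((DF (ev C z)).map_distinguished T hT)).1 (h z)

theorem isIso_ev_natW {y : (Fin n → ℂ) → ℂ} (hy : y ∈ Inv C 1) {z : Fin n → ℂ} (h : y z ≠ 0)
    (E : Obj C) : IsIso ((ev C z).map ((nat y hy).app E)) := by
  have e : (ev C z).map ((nat y hy).app E) = y z • 𝟙 ((ev C z).obj E) := by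
    ext1
    change (y z • (1 : Matrix E.ι E.ι ℂ)).mulVecLin = y z • LinearMap.id
    ext1
    ext
    simp
  have i : IsIso (y z • 𝟙 ((ev C z).obj E)) :=
    ⟨(y z)⁻¹ • 𝟙 _, by simp [smul_smul, h], by simp [smul_smul, h]⟩
  exact e ▸ i

/-- The iterated cocone over a base point free family is exact at every point. -/
theorem exists_kosW {r : ℕ} (y : Fin r → (Fin n → ℂ) → ℂ) (hy : ∀ i, y i ∈ Inv C 1)
    (h0 : ∀ z, ∃ i, y i z ≠ 0) (X : HK (Obj C)) : ∃ Z, Kos (YK y hy) X Z ∧ PAc Z := by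
  have key : ∀ l : List (Fin r), ∃ Z, Kos (YK y hy) X Z ∧
      ∀ z, (∃ i ∈ l, y i z ≠ 0) → IsZero ((DF (ev C z)).obj Z) := by
    intro l
    induction l with
    | nil => exact ⟨X, Kos.iso (Iso.refl X), fun z ⟨_, h, _⟩ => absurd h List.not_mem_nil⟩
    | cons i l ih =>
      obtain ⟨Z, hZ, hz⟩ := ih
      obtain ⟨Z', a, d, hT⟩ := distinguished_cocone_triangle₁
        (show Z ⟶ (KF (tw C 1)).obj Z from (natK (nat (y i) (hy i))).app Z)
      refine ⟨Z', Kos.step _ ⟨i, rfl⟩ a d hT hZ, fun z ⟨j, hj, hjz⟩ => ?_⟩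
      refine (Triangle.isZero₁_iff_isIso₂ _ ((DF (ev C z)).map_distinguished _ hT)).2 ?_
      rcases List.mem_cons.1 hj with rfl | hj
      · have := isIso_KF_natKW (ev C z) (nat (y j) (hy j)) (isIso_ev_natW (hy j) hjz) Z
        exact inferInstanceAs (IsIso (DerivedCategory.Qh.map
          ((KF (ev C z)).map ((natK (nat (y j) (hy j))).app Z))))
      · exact isIso_of_source_target_iso_zero _ (hz z ⟨j, hj, hjz⟩).isoZero
          ((hz z ⟨j, hj, hjz⟩).of_iso ((dfTwW C 1 z).app Z)).isoZero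
  obtain ⟨Z, hZ, hz⟩ := key (List.finRange r)
  exact ⟨Z, hZ, fun z => (h0 z).elim fun i hi => hz z ⟨i, List.mem_finRange i, hi⟩⟩

theorem Gt.antiW {a b : ℝ} (h : a ≤ b) : (Gt b : ObjectProperty (Obj C)) ≤ Gt a :=
  fun _ hE i => lt_of_le_of_lt h (hE i)

theorem exists_gtW (E : Obj C) : ∃ a : ℝ, Gt (-a) E := by
  obtain ⟨a, ha⟩ := (Set.finite_range fun i => -E.t i).bddAbove
  exact ⟨a + 1, fun i => by have := ha ⟨i, rfl⟩; dsimp only at this; linarith⟩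

theorem En.exists_gtW {X : HK (Obj C)} (hX : En ⊤ X) : ∃ a : ℝ, En (Gt (-a)) X :=
  Mor.Env.exists_level (Lo := fun a : ℝ => sg (Gt (-a)))
    (fun _ _ h _ ⟨E, hE, e⟩ => ⟨E, Gt.antiW (neg_le_neg h) E hE, e⟩)
    (by rintro _ ⟨E, -, rfl⟩; exact (Th.exists_gtW E).imp fun _ h => En.singW h) hX

theorem res_up_step {r : ℕ} (y : Fin r → (Fin n → ℂ) → ℂ) (hy : ∀ i, y i ∈ Inv C 1)
    (h0 : ∀ z, ∃ i, y i z ≠ 0) {b : ℝ} {X : HK (Obj C)} (hX : En (Gt b) X) :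
    ∃ (Y : HK (Obj C)) (s : X ⟶ Y), En (Gt (b + 1)) Y ∧ PIso s := by
  obtain ⟨Z, hZ, hz⟩ := exists_kosW y hy h0 X
  have hk : (1 : ℝ) ≤ C.k := by exact_mod_cast C.k_pos
  obtain ⟨-, a, Y, s, d, hT, hY⟩ := Kos.upW (S := sg (Gt b)) (S' := sg (Gt (b + 1)))
    (fun Z hZ => En.mapW (tw C 1) (fun E hE i => by
      have := hE i
      change b + 1 < E.t i + ((1 : ℤ) : ℝ) * C.k
      push_cast
      linarith) hZ)
    (fun _ ⟨E, hE, e⟩ => ⟨E, Gt.antiW (by linarith) E hE, e⟩) hX hZ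
  exact ⟨Y, s, hY, PAc.pIsoW hT hz⟩

theorem res_up {r : ℕ} (y : Fin r → (Fin n → ℂ) → ℂ) (hy : ∀ i, y i ∈ Inv C 1)
    (h0 : ∀ z, ∃ i, y i z ≠ 0) {X : HK (Obj C)} (hX : En ⊤ X) (b : ℝ) :
    ∃ (Y : HK (Obj C)) (s : X ⟶ Y), En (Gt b) Y ∧ PIso s := by
  obtain ⟨a, ha⟩ := hX.exists_gtW
  have key : ∀ N : ℕ, ∃ (Y : HK (Obj C)) (s : X ⟶ Y), En (Gt (-a + N)) Y ∧ PIso s := by
    intro N
    induction N with
    | zero => exact ⟨X, 𝟙 X, by simpa using ha, PIso.ofIsoW (Iso.refl X)⟩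
    | succ N ih =>
      obtain ⟨Y, s, hY, hs⟩ := ih
      obtain ⟨Y', t, hY', ht⟩ := res_up_step y hy h0 hY
      exact ⟨Y', s ≫ t, En.monoW (Gt.antiW (by push_cast; linarith)) _ hY', hs.compW ht⟩
  obtain ⟨N, hN⟩ := exists_nat_ge (b + a)
  obtain ⟨Y, s, hY, hs⟩ := key N
  exact ⟨Y, s, En.monoW (Gt.antiW (by linarith)) _ hY, hs⟩

theorem FLe.monoW {a b : ℤ} (h : a ≤ b) : FLe C a ≤ FLe C b :=
  fun _ ⟨c, hc, e⟩ => ⟨c, hc.trans h, e⟩

theorem FLe.enTwW {a c : ℤ} (b : ℤ) (h : a + b ≤ c) {X : HK (Obj C)} (hX : En (FLe C a) X) :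
    En (FLe C c) ((KF (tw C b)).obj X) :=
  En.mapW (tw C b) (fun _ ⟨d, hd, ⟨e⟩⟩ =>
    ⟨d + b, by omega, ⟨(tw C b).mapIso e ≪≫ twtw (F0 C) d b _ rfl⟩⟩) hX

theorem res_down_step {r : ℕ} (y : Fin r → (Fin n → ℂ) → ℂ) (hy : ∀ i, y i ∈ Inv C 1)
    (h0 : ∀ z, ∃ i, y i z ≠ 0) {c : ℤ} {X : HK (Obj C)} (hX : En (FLe C c) X) :
    ∃ (Y : HK (Obj C)) (s : Y ⟶ X), En (FLe C (c - 1)) Y ∧ PIso s := by
  obtain ⟨Z, hZ, hz⟩ := exists_kosW y hy h0 ((KF (tw C ((0 : ℕ) : ℤ))).obj X)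
  obtain ⟨i, -, m, a, U, g, d, hT, hU⟩ := Kos.downW (fun i : ℕ => sg (FLe C (c + i - 1)))
    (fun i _ ⟨E, hE, e⟩ => ⟨E, FLe.monoW (by push_cast; omega) E hE, e⟩)
    (fun i Z hZ => FLe.enTwW 1 (by push_cast; omega) hZ) (fun i : ℕ => (KF (tw C i)).obj X)
    (fun i => kfTwW i 1 _ (by push_cast; rfl) X) (FLe.enTwW _ (by push_cast; omega) hX) hZ
  have hd : PIso d := PAc.pIsoW (rot_of_distTriang _ hT) hz
  let j : ((KF (tw C i)).obj X)⟦m⟧⟦(1 : ℤ)⟧⟦-(m + 1)⟧ ≅ (KF (tw C i)).obj X :=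
    (shiftFunctor _ (-(m + 1))).mapIso ((shiftFunctorAdd _ m 1).app _).symm ≪≫
      ((shiftEquiv _ (m + 1)).unitIso.app _).symm
  exact ⟨(KF (tw C (-i))).obj (U⟦-(m + 1)⟧), (KF (tw C (-i))).map (d⟦-(m + 1)⟧' ≫ j.hom) ≫
    (kfTwW i (-i) 0 (add_neg_cancel _) X ≪≫ (kfZeroW X).symm).hom,
    FLe.enTwW _ (by omega) (hU.shift _),
    (((hd.shiftW _).compW (PIso.ofIsoW j)).twW _).compW (PIso.ofIsoW _)⟩

theorem res_down' {r : ℕ} (y : Fin r → (Fin n → ℂ) → ℂ) (hy : ∀ i, y i ∈ Inv C 1)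
    (h0 : ∀ z, ∃ i, y i z ≠ 0) {a : ℤ} {X : HK (Obj C)} (hX : En (FLe C a) X) (c : ℤ) :
    ∃ (Y : HK (Obj C)) (s : Y ⟶ X), En (FLe C c) Y ∧ PIso s := by
  have key : ∀ N : ℕ, ∃ (Y : HK (Obj C)) (s : Y ⟶ X), En (FLe C (a - N)) Y ∧ PIso s := by
    intro N
    induction N with
    | zero => exact ⟨X, 𝟙 X, by simpa using hX, PIso.ofIsoW (Iso.refl X)⟩
    | succ N ih =>
      obtain ⟨Y, s, hY, hs⟩ := ih
      obtain ⟨Y', t, hY', ht⟩ := res_down_step y hy h0 hY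
      exact ⟨Y', t ≫ s, En.monoW (FLe.monoW (by push_cast; omega)) _ hY', ht.compW hs⟩
  obtain ⟨Y, s, hY, hs⟩ := key (a - c).toNat
  exact ⟨Y, s, En.monoW (FLe.monoW (by omega)) _ hY, hs⟩

theorem res_down {r : ℕ} (y : Fin r → (Fin n → ℂ) → ℂ) (hy : ∀ i, y i ∈ Inv C 1)
    (h0 : ∀ z, ∃ i, y i z ≠ 0) (a c : ℤ) :
    ∃ (Y : HK (Obj C)) (s : Y ⟶ sing (twObj a (F0 C))), En (FLe C c) Y ∧ PIso s :=
  res_down' y hy h0 (En.singW ⟨a, le_rfl, ⟨Iso.refl _⟩⟩) c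

instance fullKFinc (a : ℝ) : (KF (inc C a)).Full := inferInstance

instance faithfulKFinc (a : ℝ) : (KF (inc C a)).Faithful := inferInstance

theorem lift_en {a b : ℝ} (h : a ≤ b) {Y : HK (Obj C)} (hY : En (Gt b) Y) :
    ∃ Y' : HK (PC C a), En (fun E => Gt b E.obj) Y' ∧ Nonempty ((KF (inc C a)).obj Y' ≅ Y) :=
  lift_envW (KF (inc C a)) (by
    rintro _ ⟨E, hE, rfl⟩
    exact ⟨sing (⟨E, Gt.antiW h E hE⟩ : PC C a), En.singW hE,
      ⟨(Mor.singKF (inc C a)).app ⟨E, Gt.antiW h E hE⟩⟩⟩) hY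

/-- A pointwise quasi-isomorphism to a high complex, in the subcategory. -/
theorem res_PC {r : ℕ} (y : Fin r → (Fin n → ℂ) → ℂ) (hy : ∀ i, y i ∈ Inv C 1)
    (h0 : ∀ z, ∃ i, y i z ≠ 0) {a : ℝ} (X : PC C a) (b : ℝ) :
    ∃ (Y : HK (PC C a)) (s : sing X ⟶ Y), En (fun E => Gt b E.obj) Y ∧
      PIso ((KF (inc C a)).map s) := by
  obtain ⟨Y, s, hY, hs⟩ := res_up y hy h0 (En.singW (S := ⊤) (X := X.obj) trivial) (max a b)
  obtain ⟨Y', hY', ⟨e⟩⟩ := lift_en (le_max_left a b) hY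
  obtain ⟨t, ht⟩ := (KF (inc C a)).map_surjective
    (((Mor.singKF (inc C a)).app X).hom ≫ s ≫ e.inv)
  refine ⟨Y', t, En.monoW (fun E hE => Gt.antiW (le_max_right a b) E.obj hE) _ hY', ?_⟩
  rw [ht]
  exact (PIso.ofIsoW _).compW (hs.compW (PIso.ofIsoW e.symm))

end Pool.Agent.Lib.MP_d3d358_ag.Th
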